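import Mathlib

/-!
# Three-term progressions with rational-function differences in prime fields

Q1 asks for a power-saving bound for every pair `P₁/Q₁`, `P₂/Q₂` of rational functions that are
linearly independent over `ℚ`. It fails as soon as a nonzero constant is a rational linear combination
of the two functions, for instance for `y/y` and `y/1`: a Bohr-type set of positive density then
contains no progression.
-/

set_option autoImplicit false

open Polynomial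

namespace Pool.Agent.Results.MP_4db342_co.ConstantInSpan

/-- The value in `𝔽_p` of an integer polynomial at `y ∈ 𝔽_p`. -/
noncomputable def ev {p : ℕ} (P : ℤ[X]) (y : ZMod p) : ZMod p :=
  P.eval₂ (Int.castRingHom (ZMod p)) y

/-- The rational function `P/Q` in `ℚ(y)`. -/
noncomputable def rat (P Q : ℤ[X]) : RatFunc ℚ :=
  algebraMap ℚ[X] (RatFunc ℚ) (P.map (Int.castRingHom ℚ)) /
    algebraMap ℚ[X] (RatFunc ℚ) (Q.map (Int.castRingHom ℚ))

/-- The quadruples of the question: `Q₁, Q₂ ≠ 0`, `P₁(0) = P₂(0) = 0` and `P₁/Q₁`, `P₂/Q₂` are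
linearly independent over `ℚ`. -/
def Admissible (P₁ P₂ Q₁ Q₂ : ℤ[X]) : Prop :=
  Q₁ ≠ 0 ∧ Q₂ ≠ 0 ∧ P₁.eval 0 = 0 ∧ P₂.eval 0 = 0 ∧
    LinearIndependent ℚ ![rat P₁ Q₁, rat P₂ Q₂]

/-- `A` contains no nontrivial progression `x, x + P₁(y)/Q₁(y), x + P₂(y)/Q₂(y)` with `y ≠ 0` and
`Q₁(y) Q₂(y) ≠ 0`. -/
def ProgressionFree {p : ℕ} [Fact p.Prime] (P₁ P₂ Q₁ Q₂ : ℤ[X]) (A : Finset (ZMod p)) : Prop :=
  ∀ x y : ZMod p, y ≠ 0 → ev Q₁ y * ev Q₂ y ≠ 0 →
    ¬ (x ∈ A ∧ x + ev P₁ y / ev Q₁ y ∈ A ∧ x + ev P₂ y / ev Q₂ y ∈ A)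

/-- The power-saving bound for one quadruple: there are `γ > 0` and `C` such that every
progression-free `A ⊆ 𝔽_p` has at most `C p ^ (1 - γ)` elements, for all primes `p`. -/
def PowerSaving (P₁ P₂ Q₁ Q₂ : ℤ[X]) : Prop :=
  ∃ γ : ℝ, 0 < γ ∧ ∃ C : ℝ, ∀ (p : ℕ) [Fact p.Prime] (A : Finset (ZMod p)),
    ProgressionFree P₁ P₂ Q₁ Q₂ A → (A.card : ℝ) ≤ C * (p : ℝ) ^ (1 - γ)

/-- An integral form of the hypothesis that a nonzero constant is in the span. -/
theorem exists_int {P₁ P₂ Q₁ Q₂ : ℤ[X]} (h1 : Q₁ ≠ 0) (h2 : Q₂ ≠ 0) {c : ℚ} (hc : c ≠ 0)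
    (h : RatFunc.C c ∈ Submodule.span ℚ {rat P₁ Q₁, rat P₂ Q₂}) :
    ∃ a b d : ℤ, d ≠ 0 ∧
      Polynomial.C a * (P₁ * Q₂) + Polynomial.C b * (P₂ * Q₁) = Polynomial.C d * (Q₁ * Q₂) := by
  rw [Submodule.mem_span_pair] at h
  obtain ⟨r, s, hrs⟩ := h
  have hmap : ∀ Q : ℤ[X], Q ≠ 0 → algebraMap ℚ[X] (RatFunc ℚ) (Q.map (Int.castRingHom ℚ)) ≠ 0 := by
    intro Q hQ
    rw [Ne, map_eq_zero_iff _ (RatFunc.algebraMap_injective ℚ)]
    rwa [Polynomial.map_eq_zero_iff (Int.cast_injective (α := ℚ))]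
  have hQ1 := hmap Q₁ h1
  have hQ2 := hmap Q₂ h2
  have key : Polynomial.C r * (P₁.map (Int.castRingHom ℚ) * Q₂.map (Int.castRingHom ℚ)) +
      Polynomial.C s * (P₂.map (Int.castRingHom ℚ) * Q₁.map (Int.castRingHom ℚ)) =
      Polynomial.C c * (Q₁.map (Int.castRingHom ℚ) * Q₂.map (Int.castRingHom ℚ)) := by
    apply RatFunc.algebraMap_injective ℚ
    simp only [map_add, map_mul]
    have e : ∀ t : ℚ, algebraMap ℚ (RatFunc ℚ) t = RatFunc.C t := by
      intro t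
      rw [eq_ratCast, eq_ratCast]
    rw [RatFunc.algebraMap_C, RatFunc.algebraMap_C, RatFunc.algebraMap_C, ← hrs, Algebra.smul_def,
      Algebra.smul_def, e, e]
    unfold rat
    field_simp
  -- clear denominators
  have hr : (r.den : ℚ) ≠ 0 := by exact_mod_cast r.den_ne_zero
  have hs : (s.den : ℚ) ≠ 0 := by exact_mod_cast s.den_ne_zero
  have hcd : (c.den : ℚ) ≠ 0 := by exact_mod_cast c.den_ne_zero
  refine ⟨r.num * s.den * c.den, s.num * r.den * c.den, c.num * r.den * s.den, ?_, ?_⟩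
  · have : c.num ≠ 0 := Rat.num_ne_zero.2 hc
    have h3 : (r.den : ℤ) ≠ 0 := by exact_mod_cast r.den_ne_zero
    have h4 : (s.den : ℤ) ≠ 0 := by exact_mod_cast s.den_ne_zero
    exact mul_ne_zero (mul_ne_zero this h3) h4
  · apply Polynomial.map_injective (Int.castRingHom ℚ) Int.cast_injective
    simp only [Polynomial.map_add, Polynomial.map_mul, Polynomial.map_C]
    have e1 : (Int.castRingHom ℚ) (r.num * s.den * c.den) = r * (r.den * s.den * c.den) := by
      simp only [eq_intCast]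
      push_cast
      have := Rat.mul_den_eq_num r
      linear_combination (-(s.den : ℚ) * c.den) * this
    have e2 : (Int.castRingHom ℚ) (s.num * r.den * c.den) = s * (r.den * s.den * c.den) := by
      simp only [eq_intCast]
      push_cast
      have := Rat.mul_den_eq_num s
      linear_combination (-(r.den : ℚ) * c.den) * this
    have e3 : (Int.castRingHom ℚ) (c.num * r.den * s.den) = c * (r.den * s.den * c.den) := by
      simp only [eq_intCast]
      push_cast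
      have := Rat.mul_den_eq_num c
      linear_combination (-(r.den : ℚ) * s.den) * this
    rw [e1, e2, e3]
    simp only [Polynomial.C_mul]
    linear_combination (Polynomial.C (r.den : ℚ) * Polynomial.C (s.den : ℚ) *
      Polynomial.C (c.den : ℚ)) * key

/-- The relation between the differences modulo `p`. -/
theorem relation {p : ℕ} [Fact p.Prime] {P₁ P₂ Q₁ Q₂ : ℤ[X]} {a b d : ℤ}
    (h : Polynomial.C a * (P₁ * Q₂) + Polynomial.C b * (P₂ * Q₁) = Polynomial.C d * (Q₁ * Q₂))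
    (y : ZMod p) (hy : ev Q₁ y * ev Q₂ y ≠ 0) :
    (a : ZMod p) * (ev P₁ y / ev Q₁ y) + (b : ZMod p) * (ev P₂ y / ev Q₂ y) = d := by
  have h1 : ev Q₁ y ≠ 0 := left_ne_zero_of_mul hy
  have h2 : ev Q₂ y ≠ 0 := right_ne_zero_of_mul hy
  have h3 := congrArg (fun P => ev P y) h
  simp only [ev, eval₂_add, eval₂_mul, eval₂_C] at h3
  simp only [eq_intCast] at h3
  field_simp
  simp only [ev]
  linear_combination h3

/-- A progression-free set of positive density. -/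
theorem exists_dense {P₁ P₂ Q₁ Q₂ : ℤ[X]} {a b d : ℤ} (hd : d ≠ 0)
    (h : Polynomial.C a * (P₁ * Q₂) + Polynomial.C b * (P₂ * Q₁) = Polynomial.C d * (Q₁ * Q₂)) :
    ∃ K : ℕ, 0 < K ∧ ∀ (p : ℕ) [Fact p.Prime], K < p →
      ∃ A : Finset (ZMod p), ProgressionFree P₁ P₂ Q₁ Q₂ A ∧ (p : ℝ) / K ≤ A.card := by
  set M : ℕ := a.natAbs + b.natAbs + 1 with hM
  refine ⟨4 * M + d.natAbs + 4, by omega, ?_⟩
  intro p hp hKp
  have hp0 : p ≠ 0 := hp.out.ne_zero
  have : NeZero p := ⟨hp0⟩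
  have hp2 : p % 2 = 1 := by
    rcases hp.out.eq_two_or_odd with h2 | h2
    · omega
    · exact h2
  -- `d` is invertible modulo `p`
  have hdp : (d : ZMod p) ≠ 0 := by
    rw [Ne, ZMod.intCast_zmod_eq_zero_iff_dvd]
    intro hdvd
    have := Int.le_of_dvd (by positivity : (0 : ℤ) < |d|) ((dvd_abs _ _).2 hdvd)
    rw [Int.abs_eq_natAbs] at this
    omega
  obtain ⟨m, hm⟩ : ∃ m, m = (p - 1) / 2 := ⟨_, rfl⟩
  have hm0 : (m : ZMod p) ≠ 0 := by
    rw [Ne, ZMod.natCast_eq_zero_iff]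
    intro hdvd
    have := Nat.le_of_dvd (by omega) hdvd
    omega
  obtain ⟨t, ht⟩ : ∃ t : ZMod p, t = m * (d : ZMod p)⁻¹ := ⟨_, rfl⟩
  have htd : t * d = m := by rw [ht, mul_assoc, inv_mul_cancel₀ hdp, mul_one]
  have ht0 : t ≠ 0 := by
    rw [ht]
    exact mul_ne_zero hm0 (inv_ne_zero hdp)
  -- the set
  obtain ⟨L, hL⟩ : ∃ L, L = (p - 1) / (4 * M) + 1 := ⟨_, rfl⟩
  let A : Finset (ZMod p) := (Finset.range L).image (fun u : ℕ => t⁻¹ * (u : ZMod p))
  have hLp : 4 * M * (L - 1) ≤ p - 1 := by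
    rw [hL, Nat.add_sub_cancel]
    exact Nat.mul_div_le _ _
  have hL1 : 1 ≤ L := by rw [hL]; exact Nat.le_add_left 1 _
  have hLp' : L ≤ p := by
    have h4 : L - 1 ≤ 4 * M * (L - 1) := Nat.le_mul_of_pos_left _ (by omega)
    have := hp.out.one_lt
    omega
  have hmem : ∀ x ∈ A, ∃ u : ℕ, u < L ∧ t * x = u := by
    intro x hx
    obtain ⟨u, hu, rfl⟩ := Finset.mem_image.1 hx
    refine ⟨u, Finset.mem_range.1 hu, ?_⟩
    rw [← mul_assoc, mul_inv_cancel₀ ht0, one_mul]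
  refine ⟨A, ?_, ?_⟩
  · rintro x y - hy ⟨hx0, hx1, hx2⟩
    obtain ⟨u0, hu0, e0⟩ := hmem _ hx0
    obtain ⟨u1, hu1, e1⟩ := hmem _ hx1
    obtain ⟨u2, hu2, e2⟩ := hmem _ hx2
    have hrel := relation h y hy
    have h5 : ((a * ((u1 : ℤ) - u0) + b * ((u2 : ℤ) - u0) - m : ℤ) : ZMod p) = 0 := by
      push_cast
      rw [← e0, ← e1, ← e2, ← htd, ← hrel]
      ring
    rw [ZMod.intCast_zmod_eq_zero_iff_dvd] at h5
    -- size of the integer
    have h6 : |a * ((u1 : ℤ) - u0) + b * ((u2 : ℤ) - u0)| ≤ M * (L - 1 : ℕ) := by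
      have g1 : |(u1 : ℤ) - u0| ≤ (L - 1 : ℕ) := by rw [abs_le]; omega
      have g2 : |(u2 : ℤ) - u0| ≤ (L - 1 : ℕ) := by rw [abs_le]; omega
      calc |a * ((u1 : ℤ) - u0) + b * ((u2 : ℤ) - u0)|
          ≤ |a * ((u1 : ℤ) - u0)| + |b * ((u2 : ℤ) - u0)| := abs_add_le _ _
        _ = |a| * |(u1 : ℤ) - u0| + |b| * |(u2 : ℤ) - u0| := by rw [abs_mul, abs_mul]
        _ ≤ |a| * (L - 1 : ℕ) + |b| * (L - 1 : ℕ) := by gcongr
        _ ≤ M * (L - 1 : ℕ) := by
          rw [← add_mul]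
          have : |a| + |b| ≤ (M : ℤ) := by
            rw [hM]; push_cast
            omega
          exact mul_le_mul_of_nonneg_right this (by positivity)
    have h7 : (4 : ℤ) * (M * (L - 1 : ℕ)) ≤ p - 1 := by
      have h8 : 4 * M * (L - 1) + 1 ≤ p := by
        have := hp.out.one_lt
        omega
      have : ((4 * M * (L - 1) + 1 : ℕ) : ℤ) ≤ p := by exact_mod_cast h8
      push_cast at this ⊢
      linarith
    have hm2 : 2 * (m : ℤ) = p - 1 := by omega
    obtain ⟨k, hk⟩ := h5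
    rw [abs_le] at h6
    have hp4 : (4 : ℤ) < p := by omega
    have hk1 : k < 0 := by
      by_contra hcon
      push Not at hcon
      have : 0 ≤ (p : ℤ) * k := by positivity
      linarith
    have hk2 : -1 < k := by
      by_contra hcon
      push Not at hcon
      have : (p : ℤ) * k ≤ p * (-1) := mul_le_mul_of_nonneg_left hcon (by positivity)
      linarith
    omega
  · have hcard : A.card = L := by
      rw [Finset.card_image_of_injOn, Finset.card_range]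
      intro u hu v hv huv
      have huv' : (u : ZMod p) = v := mul_left_cancel₀ (inv_ne_zero ht0) huv
      rw [ZMod.natCast_eq_natCast_iff'] at huv'
      have g1 := Finset.mem_range.1 (Finset.mem_coe.1 hu)
      have g2 := Finset.mem_range.1 (Finset.mem_coe.1 hv)
      rwa [Nat.mod_eq_of_lt (by omega), Nat.mod_eq_of_lt (by omega)] at huv'
    rw [hcard, div_le_iff₀ (by positivity)]
    have h9 : p ≤ 4 * M * L := by
      have := Nat.lt_mul_div_succ (p - 1) (by omega : 0 < 4 * M)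
      rw [hL]
      omega
    have h10 : p ≤ L * (4 * M + d.natAbs + 4) := by
      calc p ≤ 4 * M * L := h9
        _ = L * (4 * M) := by ring
        _ ≤ L * (4 * M + d.natAbs + 4) := Nat.mul_le_mul_left _ (by omega)
    exact_mod_cast h10

/-- If a nonzero constant lies in the rational span of `P₁/Q₁` and `P₂/Q₂` then sets of positive
density without nontrivial progression exist modulo all large primes, and the power-saving bound
fails. -/
theorem not_powerSaving {P₁ P₂ Q₁ Q₂ : ℤ[X]} (h1 : Q₁ ≠ 0) (h2 : Q₂ ≠ 0) {c : ℚ} (hc : c ≠ 0)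
    (h : RatFunc.C c ∈ Submodule.span ℚ {rat P₁ Q₁, rat P₂ Q₂}) :
    (∃ δ : ℝ, 0 < δ ∧ ∃ p₀ : ℕ, ∀ (p : ℕ) [Fact p.Prime], p₀ ≤ p →
      ∃ A : Finset (ZMod p), ProgressionFree P₁ P₂ Q₁ Q₂ A ∧ δ * p ≤ A.card) ∧
    ¬ PowerSaving P₁ P₂ Q₁ Q₂ := by
  obtain ⟨a, b, d, hd, hrel⟩ := exists_int h1 h2 hc h
  obtain ⟨K, hK, hA⟩ := exists_dense hd hrel
  have hK' : (0 : ℝ) < K := by exact_mod_cast hK
  refine ⟨⟨1 / K, by positivity, K + 1, fun p _ hp => ?_⟩, ?_⟩
  · obtain ⟨A, hA1, hA2⟩ := hA p (by omega)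
    exact ⟨A, hA1, by rw [one_div, inv_mul_eq_div]; exact hA2⟩
  · rintro ⟨γ, hγ, C, hC⟩
    have hlim : Filter.Tendsto (fun p : ℕ => (p : ℝ) ^ γ) Filter.atTop Filter.atTop :=
      (tendsto_rpow_atTop hγ).comp tendsto_natCast_atTop_atTop
    obtain ⟨N, hN⟩ := Filter.eventually_atTop.1 (hlim.eventually_gt_atTop (C * K))
    obtain ⟨p, hp1, hp2⟩ := Nat.exists_infinite_primes (max N (K + 1))
    have : Fact p.Prime := ⟨hp2⟩
    obtain ⟨A, hA1, hA2⟩ := hA p (lt_of_lt_of_le (Nat.lt_succ_self K) ((le_max_right _ _).trans hp1))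
    have h3 := hC p A hA1
    have h4 := hN p ((le_max_left _ _).trans hp1)
    have hp0 : (0 : ℝ) < p := by exact_mod_cast hp2.pos
    have h5 : (p : ℝ) / K ≤ C * (p : ℝ) ^ (1 - γ) := hA2.trans h3
    have h6 : (p : ℝ) ^ (1 - γ) * (p : ℝ) ^ γ = p := by
      rw [← Real.rpow_add hp0]
      simp
    have h7 : 0 < (p : ℝ) ^ (1 - γ) := Real.rpow_pos_of_pos hp0 _
    rw [div_le_iff₀ hK'] at h5
    have h8 : (p : ℝ) ^ (1 - γ) * (p : ℝ) ^ γ ≤ (p : ℝ) ^ (1 - γ) * (C * K) := by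
      rw [h6]
      linarith
    exact absurd (le_of_mul_le_mul_left h8 h7) (not_le.2 h4)

theorem rat_one : rat X X = 1 := by
  unfold rat
  rw [div_self]
  rw [Ne, map_eq_zero_iff _ (RatFunc.algebraMap_injective ℚ)]
  simp

theorem rat_X : rat X 1 = RatFunc.X := by
  unfold rat
  simp

theorem admissible_example : Admissible X X X 1 := by
  refine ⟨X_ne_zero, one_ne_zero, by simp, by simp, ?_⟩
  rw [rat_one, rat_X, LinearIndependent.pair_iff]
  intro s t hst
  have h1 : Polynomial.C s + Polynomial.C t * X = (0 : ℚ[X]) := by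
    apply RatFunc.algebraMap_injective ℚ
    rw [map_add, map_mul, map_zero, ← hst, RatFunc.algebraMap_X, Algebra.smul_def, Algebra.smul_def,
      mul_one, RatFunc.algebraMap_C, RatFunc.algebraMap_C]
    simp only [eq_ratCast]
  have h2 := congrArg (fun P => Polynomial.coeff P 0) h1
  have h3 := congrArg (fun P => Polynomial.coeff P 1) h1
  simp at h2 h3
  refine ⟨h2, ?_⟩
  simpa [Polynomial.coeff_C] using h3

/-- **Q1 fails for every quadruple for which a nonzero constant is a rational linear combination of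
`P₁/Q₁` and `P₂/Q₂`**, by sets of positive density, and there are such quadruples among those of the
question; so the answer to Q1 as posed is negative. -/
theorem result :
    (∀ P₁ P₂ Q₁ Q₂ : ℤ[X], Admissible P₁ P₂ Q₁ Q₂ →
      (∃ c : ℚ, c ≠ 0 ∧ RatFunc.C c ∈ Submodule.span ℚ {rat P₁ Q₁, rat P₂ Q₂}) →
      (∃ δ : ℝ, 0 < δ ∧ ∃ p₀ : ℕ, ∀ (p : ℕ) [Fact p.Prime], p₀ ≤ p →
        ∃ A : Finset (ZMod p), ProgressionFree P₁ P₂ Q₁ Q₂ A ∧ δ * p ≤ A.card) ∧
      ¬ PowerSaving P₁ P₂ Q₁ Q₂) ∧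
    ¬ ∀ P₁ P₂ Q₁ Q₂ : ℤ[X], Admissible P₁ P₂ Q₁ Q₂ → PowerSaving P₁ P₂ Q₁ Q₂ := by
  refine ⟨fun P₁ P₂ Q₁ Q₂ h ⟨c, hc, hc2⟩ => not_powerSaving h.1 h.2.1 hc hc2, fun h => ?_⟩
  refine (not_powerSaving (P₁ := X) (P₂ := X) (Q₁ := X) (Q₂ := 1) X_ne_zero one_ne_zero
    (c := 1) one_ne_zero ?_).2 (h _ _ _ _ admissible_example)
  rw [map_one, ← rat_one]
  exact Submodule.subset_span (by simp)

end Pool.Agent.Results.MP_4db342_co.ConstantInSpan
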